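import Pool.Agent.X97.IR.Intro

set_option autoImplicit false

/-! # Non-decomposability against countably many functionals -/

namespace Pool.Agent.X97.IR

/-- The oracle prefix of length `n` determined by a finite set. -/
def spre (s : List ℕ) (n : ℕ) : List Bool := (List.range n).map (fun a => decide (a ∈ s))

/-- Length of the oracle prefix determined by a descending list. -/
def bnd : List ℕ → ℕ
  | [] => 0
  | a :: _ => a + 1

theorem suffix_mem {s t : List ℕ} (h : s <:+ t) (ht : Desc t) {a : ℕ} (ha : a < bnd s) :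
    a ∈ s ↔ a ∈ t := by
  obtain ⟨u, rfl⟩ := h
  constructor
  · intro h; exact List.mem_append_right _ h
  · intro h
    rcases List.mem_append.1 h with h' | h'
    · cases s with
      | nil => simp [bnd] at ha
      | cons b s =>
        have := (List.pairwise_append.1 ht).2.2 a h' b List.mem_cons_self
        simp [bnd] at ha
        omega
    · exact h'

theorem spre_eq {s t : List ℕ} (h : s <:+ t) (ht : Desc t) {n : ℕ} (hn : n ≤ bnd s) :
    spre s n = spre t n := by
  unfold spre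
  rw [List.map_inj_left]
  intro a ha
  rw [List.mem_range] at ha
  simp only [suffix_mem h ht (ha.trans_le hn)]

theorem bnd_le {s t : List ℕ} (h : s <:+ t) (ht : Desc t) : bnd s ≤ bnd t := by
  obtain ⟨u, rfl⟩ := h
  cases s with
  | nil => simp [bnd]
  | cons b s =>
    cases u with
    | nil => exact le_rfl
    | cons c u =>
      have := (List.pairwise_append.1 ht).2.2 c List.mem_cons_self b List.mem_cons_self
      simp [bnd]
      omega

/-- The first decision. -/
def Dc (f : List Bool × ℕ →. Bool) (s : List ℕ) (x : ℕ) (y : Bool) : Prop :=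
  ∃ n ≤ bnd s, y ∈ f (spre s n, x) ∧ ∀ n' < n, ¬ (f (spre s n', x)).Dom

theorem Dc_unique {f : List Bool × ℕ →. Bool} {s t : List ℕ} (h : s <:+ t) (ht : Desc t)
    {x : ℕ} {y y' : Bool} (h1 : Dc f s x y) (h2 : Dc f t x y') : y = y' := by
  obtain ⟨n, hn1, hn2, hn3⟩ := h1
  obtain ⟨m, hm1, hm2, hm3⟩ := h2
  rw [spre_eq h ht hn1] at hn2
  rcases lt_trichotomy n m with hlt | heq | hgt
  · exact absurd (Part.dom_iff_mem.2 ⟨_, hn2⟩) (hm3 n hlt)
  · subst heq
    exact Part.mem_unique hn2 hm2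
  · have := hn3 m hgt
    rw [spre_eq h ht (hgt.le.trans hn1)] at this
    exact absurd (Part.dom_iff_mem.2 ⟨_, hm2⟩) this

/-- Test elements. -/
def xk (p : List ℕ) (k : ℕ) : ℕ := Encodable.encode (p.length + 1, p ++ [k, 0])

theorem msk_succ (X : ℕ → ℕ) (i : ℕ) : msk X (i + 1) (i + 2) = pre X i ++ [X i, 0] := by
  unfold msk pre
  rw [List.range_succ, List.range_succ, List.map_append, List.map_append, List.append_assoc]
  congr 1
  · rw [List.map_inj_left]
    intro m hm
    rw [List.mem_range] at hm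
    rw [if_neg (by omega)]
  · simp

theorem xk_mem {X : ℕ → ℕ} {i k : ℕ} : xk (pre X i) k ∈ As X ↔ k = X i := by
  unfold xk
  rw [pre_length]
  constructor
  · rintro ⟨i', n', h1, h2⟩
    have h3 := Encodable.encode_injective h2
    rw [Prod.mk.injEq] at h3
    obtain ⟨rfl, h4⟩ := h3
    have h5 := congrArg List.length h4
    simp only [List.length_append, pre_length, List.length_cons, List.length_nil, msk_length] at h5
    have h6 : n' = i + 2 := by omega
    subst h6
    rw [msk_succ] at h4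
    have h7 := List.append_cancel_left h4
    simpa using h7
  · rintro rfl
    exact ⟨i + 1, i + 2, by omega, by rw [msk_succ]⟩

open Classical in
/-- The descending list of the elements of `C` up to `c`. -/
noncomputable def seg (C : Set ℕ) (c : ℕ) : List ℕ :=
  ((List.range (c + 1)).filter (fun a => decide (a ∈ C))).reverse

theorem mem_seg {C : Set ℕ} {c a : ℕ} : a ∈ seg C c ↔ a ≤ c ∧ a ∈ C := by
  simp [seg, Nat.lt_succ_iff]

theorem desc_seg (C : Set ℕ) (c : ℕ) : Desc (seg C c) := by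
  unfold Desc seg
  rw [List.pairwise_reverse]
  exact (List.pairwise_lt_range).filter _

theorem bnd_seg {C : Set ℕ} {c : ℕ} (hc : c ∈ C) : bnd (seg C c) = c + 1 := by
  unfold seg
  rw [List.range_succ, List.filter_append, List.reverse_append]
  simp [hc, bnd]

theorem spre_seg {C : Set ℕ} {c n : ℕ} (hn : n ≤ c + 1) : spre (seg C c) n = opre C n := by
  unfold spre opre
  rw [List.map_inj_left]
  intro a ha
  rw [List.mem_range] at ha
  have : a ∈ seg C c ↔ a ∈ C := by
    rw [mem_seg]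
    exact ⟨fun h => h.2, fun h => ⟨by omega, h⟩⟩
  exact decide_eq_decide.2 this

theorem exists_seg {f : List Bool × ℕ →. Bool} {C A : Set ℕ} (hC : C.Infinite)
    (h : Computes f C A) (xs : ℕ → ℕ) (N : ℕ) :
    ∃ s, Desc s ∧ (∀ x ∈ s, x ∈ C) ∧ ∀ k < N, ∃ y, Dc f s (xs k) y ∧ (y = true ↔ xs k ∈ A) := by
  classical
  have h1 : ∀ k, ∃ n, (f (opre C n, xs k)).Dom := fun k => (h (xs k)).1
  let nf : ℕ → ℕ := fun k => Nat.find (h1 k)
  obtain ⟨c, hcC, hc⟩ := hC.exists_gt ((Finset.range N).sup nf)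
  refine ⟨seg C c, desc_seg C c, fun x hx => (mem_seg.1 hx).2, fun k hk => ?_⟩
  have hle : nf k ≤ c + 1 := by
    have := Finset.le_sup (f := nf) (Finset.mem_range.2 hk)
    omega
  obtain ⟨y, hy⟩ := Part.dom_iff_mem.1 (Nat.find_spec (h1 k))
  refine ⟨y, ⟨nf k, by rw [bnd_seg hcC]; exact hle, ?_, ?_⟩, (h (xs k)).2 _ y hy⟩
  · rw [spre_seg hle]; exact hy
  · intro n' hn'
    rw [spre_seg (hn'.le.trans hle)]
    exact Nat.find_min (h1 k) hn'

theorem nondec (Op : Type) [Countable Op] (fn : Op → (List Bool × ℕ →. Bool)) :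
    ∃ X : ℕ → ℕ, ∀ (n : ℕ) (g : Fin n → Op) (B : Fin n → Set ℕ), As X ⊆ ⋃ j, B j →
      ∃ j, ∃ C ⊆ B j, C ⊆ As X ∧ C.Infinite ∧ ¬ Computes (fn (g j)) C (As X) := by
  classical
  obtain ⟨ops, hops⟩ := exists_surjective_nat (List Op)
  let M : ℕ → ℕ := fun r => (ops r).length
  let G : ℕ → List ℕ → ℕ → ℕ → List ℕ → Prop := fun r p j k s =>
    ∃ o, (ops r)[j]? = some o ∧ ∀ k' < M r + 1, ∃ y, Dc (fn o) s (xk p k') y ∧ (y = true ↔ k' = k)
  have hc : ∀ r p, ∀ j < M r, ∀ k < M r + 1, ∀ k' < M r + 1, ∀ s t, s <:+ t →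
      Desc t → G r p j k s → G r p j k' t → k = k' := by
    rintro r p j hj k hk k' hk' s t hst ht ⟨o, ho, h1⟩ ⟨o', ho', h2⟩
    rw [ho] at ho'
    cases ho'
    obtain ⟨y, hy1, hy2⟩ := h1 k hk
    obtain ⟨y', hy1', hy2'⟩ := h2 k hk
    have := Dc_unique hst ht hy1 hy1'
    subst this
    exact hy2'.1 (hy2.2 rfl)
  obtain ⟨X, hX⟩ := main hc
  refine ⟨X, fun n g B hB => ?_⟩
  obtain ⟨r, hr⟩ := hops (List.ofFn g)
  obtain ⟨i, hi, H, hH1, hH2, hH3⟩ := hX r
  have hMr : M r = n := by simp [M, hr]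
  have hcov : ∃ j, (H ∩ B j).Infinite := by
    by_contra hne
    push Not at hne
    apply hH2
    refine (Set.finite_iUnion fun j => hne j).subset ?_
    intro x hx
    obtain ⟨j, hj⟩ := Set.mem_iUnion.1 (hB (blk_subset X i (hH1 hx)))
    exact Set.mem_iUnion.2 ⟨j, hx, hj⟩
  obtain ⟨j, hj⟩ := hcov
  refine ⟨j, H ∩ B j, Set.inter_subset_right,
    fun x hx => blk_subset X i (hH1 hx.1), hj, fun hcomp => ?_⟩
  obtain ⟨s, hs1, hs2, hs3⟩ := exists_seg hj hcomp (fun k => xk (pre X i) k) (M r + 1)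
  refine hH3 s hs1 (fun x hx => (hs2 x hx).1) j (by rw [hMr]; exact j.2) ⟨g j, ?_, ?_⟩
  · rw [hr]
    simp
  · intro k' hk'
    obtain ⟨y, hy1, hy2⟩ := hs3 k' hk'
    exact ⟨y, hy1, hy2.trans xk_mem⟩

end Pool.Agent.X97.IR
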