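import Pool.Agent.X97.IR.Comp
import Pool.Agent.X97.IR.Non

set_option autoImplicit false

/-! # Countability of the operators; the Turing case -/

namespace Pool.Agent.X97.IR

/-- Turing operators as a type. -/
abbrev TOp : Type := {f : List Bool × ℕ →. Bool // Partrec f}

instance : Countable TOp := by
  classical
  have h : ∀ f : TOp, ∃ c : Nat.Partrec.Code, c.eval = fun n =>
      Part.bind (Encodable.decode (α := List Bool × ℕ) n) fun a => (f.1 a).map Encodable.encode :=
    fun f => Nat.Partrec.Code.exists_code.1 f.2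
  choose c hc using h
  refine Function.Injective.countable (f := c) ?_
  intro f g hfg
  apply Subtype.ext
  funext a
  have h1 : (c f).eval (Encodable.encode a) = (c g).eval (Encodable.encode a) := by rw [hfg]
  rw [hc, hc] at h1
  simp only [Encodable.encodek, Part.coe_some, Part.bind_some] at h1
  apply Part.ext
  intro y
  have h2 : ∀ z, z ∈ (f.1 a).map Encodable.encode ↔ z ∈ (g.1 a).map Encodable.encode := by
    intro z; rw [h1]
  have h3 := h2 (Encodable.encode y)
  rw [Part.mem_map_iff, Part.mem_map_iff] at h3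
  constructor
  · intro hy
    obtain ⟨w, hw1, hw2⟩ := h3.1 ⟨y, hy, rfl⟩
    rwa [← Encodable.encode_injective hw2]
  · intro hy
    obtain ⟨w, hw1, hw2⟩ := h3.2 ⟨y, hy, rfl⟩
    rwa [← Encodable.encode_injective hw2]

theorem exists_not_finitelyDecomposable :
    ∃ A : Set ℕ, Introreducible A ∧ ¬ FinitelyDecomposable A := by
  obtain ⟨X, hX⟩ := nondec TOp (fun o => o.1)
  refine ⟨As X, introreducible_As X, ?_⟩
  rintro ⟨n, B, hA, hB⟩
  choose f hf using hB
  obtain ⟨j, C, hC1, _, hC3, hC4⟩ := hX (n + 1) (fun j => ⟨f j, (hf j).1⟩) B hA.subset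
  exact hC4 ((hf j).2 C hC1 hC3)

end Pool.Agent.X97.IR
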