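import Pool.Agent.X97.IR.Intro

set_option autoImplicit false

/-! # Computability of the operators and introreducibility of `As X` -/

namespace Pool.Agent.X97.IR

theorem primrec_guess (i0 k0 : ℕ) :
    Primrec (fun a : (ℕ × List ℕ) × (ℕ × List ℕ) => guess i0 k0 a.1.2 a.2.1 a.2.2.length) := by
  unfold guess
  refine Primrec.list_map (Primrec.list_range.comp
    (Primrec.list_length.comp (Primrec.snd.comp Primrec.snd))) ?_
  refine Primrec.ite (Primrec.eq.comp Primrec.snd
    (Primrec.fst.comp (Primrec.snd.comp Primrec.fst))) (Primrec.const 0) ?_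
  refine Primrec.ite (Primrec.eq.comp Primrec.snd (Primrec.const i0)) (Primrec.const k0) ?_
  exact (Primrec.list_getD 0).comp (Primrec.snd.comp (Primrec.fst.comp Primrec.fst)) Primrec.snd

theorem primrec_okans (i0 k0 : ℕ) : Primrec (fun a : ℕ × ℕ => okans i0 k0 a.1 a.2) := by
  have h : ∀ a : ℕ × ℕ, okans i0 k0 a.1 a.2 =
      Option.casesOn (Encodable.decode a.1 : Option (ℕ × List ℕ)) none
        (fun p => Option.casesOn (Encodable.decode a.2 : Option (ℕ × List ℕ)) (some false)
          (fun q => if q.2.length ≤ p.2.length ∧ (p.1 = i0 ∨ q.2.length ≤ p.1) then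
            some (decide (q.1 < q.2.length ∧ q.2 = guess i0 k0 p.2 q.1 q.2.length)) else none)) := by
    intro a
    unfold okans
    cases (Encodable.decode a.1 : Option (ℕ × List ℕ)) <;>
      cases (Encodable.decode a.2 : Option (ℕ × List ℕ)) <;> rfl
  refine Primrec.of_eq ?_ fun a => (h a).symm
  refine Primrec.option_casesOn (Primrec.decode.comp Primrec.fst) (Primrec.const none) ?_
  refine Primrec.option_casesOn (Primrec.decode.comp (Primrec.snd.comp Primrec.fst))
    (Primrec.const _) ?_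
  have hp : Primrec (fun a : ((ℕ × ℕ) × (ℕ × List ℕ)) × (ℕ × List ℕ) => a.1.2) :=
    Primrec.snd.comp Primrec.fst
  have hq : Primrec (fun a : ((ℕ × ℕ) × (ℕ × List ℕ)) × (ℕ × List ℕ) => a.2) := Primrec.snd
  have hql : Primrec (fun a : ((ℕ × ℕ) × (ℕ × List ℕ)) × (ℕ × List ℕ) => a.2.2.length) :=
    Primrec.list_length.comp (Primrec.snd.comp hq)
  have hpl : Primrec (fun a : ((ℕ × ℕ) × (ℕ × List ℕ)) × (ℕ × List ℕ) => a.1.2.2.length) :=
    Primrec.list_length.comp (Primrec.snd.comp hp)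
  have hp1 : Primrec (fun a : ((ℕ × ℕ) × (ℕ × List ℕ)) × (ℕ × List ℕ) => a.1.2.1) :=
    Primrec.fst.comp hp
  have hq1 : Primrec (fun a : ((ℕ × ℕ) × (ℕ × List ℕ)) × (ℕ × List ℕ) => a.2.1) :=
    Primrec.fst.comp hq
  have hg : Primrec (fun a : ((ℕ × ℕ) × (ℕ × List ℕ)) × (ℕ × List ℕ) =>
      guess i0 k0 a.1.2.2 a.2.1 a.2.2.length) :=
    (primrec_guess i0 k0).comp (Primrec.pair hp hq)
  refine Primrec.ite ?_ ?_ (Primrec.const none)
  · exact (Primrec.nat_le.comp hql hpl).and
      ((Primrec.eq.comp hp1 (Primrec.const i0)).or (Primrec.nat_le.comp hql hp1))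
  · exact Primrec.option_some.comp (PrimrecPred.decide
      ((Primrec.nat_lt.comp hq1 hql).and (Primrec.eq.comp (Primrec.snd.comp hq) hg)))

/-- The Turing operator. -/
def opF (i0 k0 : ℕ) : List Bool × ℕ →. Bool := fun p =>
  ((bif p.1.getD (p.1.length - 1) false then okans i0 k0 (p.1.length - 1) p.2 else none :
    Option Bool) : Part Bool)

theorem partrec_opF (i0 k0 : ℕ) : Partrec (opF i0 k0) := by
  refine Computable.ofOption (Primrec.to_comp ?_)
  have h1 : Primrec (fun p : List Bool × ℕ => p.1.length - 1) :=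
    Primrec.nat_sub.comp (Primrec.list_length.comp Primrec.fst) (Primrec.const 1)
  refine Primrec.cond ((Primrec.list_getD false).comp Primrec.fst h1) ?_ (Primrec.const none)
  exact (primrec_okans i0 k0).comp (Primrec.pair h1 Primrec.snd)

theorem opre_length (C : Set ℕ) (n : ℕ) : (opre C n).length = n := by simp [opre]

open Classical in
theorem opre_getD (C : Set ℕ) (b : ℕ) : (opre C (b + 1)).getD b false = decide (b ∈ C) := by
  simp [opre, List.getD_eq_getElem?_getD]

theorem mem_opF {i0 k0 : ℕ} {C : Set ℕ} {n x : ℕ} {y : Bool} :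
    y ∈ opF i0 k0 (opre C n, x) ↔ ∃ b, n = b + 1 ∧ b ∈ C ∧ okans i0 k0 b x = some y := by
  unfold opF
  simp only [opre_length]
  cases n with
  | zero =>
    simp [opre]
  | succ b =>
    simp only [Nat.add_sub_cancel]
    rw [opre_getD]
    by_cases hb : b ∈ C
    · simp [hb]
    · simp [hb]

/-- Choice of the block parameter. -/
theorem exists_param (X : ℕ → ℕ) (C : Set ℕ) (hC : C ⊆ As X) (hinf : C.Infinite) :
    ∃ i0, ∀ x, ∃ b ∈ C, ∃ y, okans i0 (X i0) b x = some y := by
  classical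
  -- it suffices to find elements with long lists
  suffices h : ∃ i0, ∀ L, ∃ i n, i < n ∧ Encodable.encode (i, msk X i n) ∈ C ∧ L ≤ n ∧
      (i = i0 ∨ L ≤ i) by
    obtain ⟨i0, h⟩ := h
    refine ⟨i0, fun x => ?_⟩
    cases hx : (Encodable.decode x : Option (ℕ × List ℕ)) with
    | none =>
      obtain ⟨i, n, -, h2, -⟩ := h 0
      refine ⟨_, h2, false, ?_⟩
      unfold okans
      rw [Encodable.encodek, hx]
    | some q =>
      obtain ⟨i, n, -, h2, h3, h4⟩ := h q.2.length
      refine ⟨_, h2, decide (q.1 < q.2.length ∧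
        q.2 = guess i0 (X i0) (msk X i n) q.1 q.2.length), ?_⟩
      unfold okans
      rw [Encodable.encodek, hx]
      simp only
      rw [if_pos]
      rw [msk_length]
      exact ⟨h3, h4⟩
  by_cases hcase : ∃ i0, (C ∩ blk X i0).Infinite
  · obtain ⟨i0, hi0⟩ := hcase
    refine ⟨i0, fun L => ?_⟩
    by_contra hne
    push Not at hne
    apply hi0
    refine ((Set.finite_lt_nat L).image (fun n => Encodable.encode (i0, msk X i0 n))).subset ?_
    rintro b ⟨hb1, n, hn1, hn2⟩
    refine ⟨n, ?_, hn2.symm⟩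
    by_contra hLn
    exact (hne i0 n hn1 (hn2 ▸ hb1) (not_lt.1 hLn)).1 rfl
  · push Not at hcase
    refine ⟨0, fun L => ?_⟩
    by_contra hne
    push Not at hne
    apply hinf
    refine (((Set.finite_lt_nat L).biUnion (fun i _ => hcase i))).subset ?_
    intro b hb
    obtain ⟨i, n, hn1, hn2⟩ := hC hb
    refine Set.mem_biUnion (x := i) ?_ ⟨hb, n, hn1, hn2⟩
    show i < L
    by_contra hLi
    have := (hne i n hn1 (hn2 ▸ hb) ((not_lt.1 hLi).trans hn1.le)).2
    omega

theorem computes_opF (X : ℕ → ℕ) (C : Set ℕ) (hC : C ⊆ As X) (i0 : ℕ)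
    (h : ∀ x, ∃ b ∈ C, ∃ y, okans i0 (X i0) b x = some y) :
    Computes (opF i0 (X i0)) C (As X) := by
  intro x
  constructor
  · obtain ⟨b, hb, y, hy⟩ := h x
    exact ⟨b + 1, (Part.dom_iff_mem.2 ⟨y, mem_opF.2 ⟨b, rfl, hb, hy⟩⟩)⟩
  · intro n y hy
    obtain ⟨b, -, hb, hy⟩ := mem_opF.1 hy
    obtain ⟨i, m, h1, h2⟩ := hC hb
    subst h2
    exact okans_enc rfl h1 hy

theorem As_infinite (X : ℕ → ℕ) : (As X).Infinite := (blk_infinite X 0).mono (blk_subset X 0)

theorem introreducible_As (X : ℕ → ℕ) : Introreducible (As X) := by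
  refine ⟨As_infinite X, fun C hC hinf => ?_⟩
  obtain ⟨i0, h⟩ := exists_param X C hC hinf
  exact ⟨opF i0 (X i0), partrec_opF _ _, computes_opF X C hC i0 h⟩

end Pool.Agent.X97.IR
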