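import Mathlib

set_option autoImplicit false

/-! # Turing operators and introreducible sets: definitions -/

namespace Pool.Agent.X97.IR

open Classical in
/-- The first `n` bits of the characteristic function of `C`. -/
noncomputable def opre (C : Set ℕ) (n : ℕ) : List Bool :=
  (List.range n).map (fun a => decide (a ∈ C))

/-- `Φ^C = A` for a functional `Φ` given by a partial function `f` on pairs (initial segment of
the oracle, input): for every input `x` some initial segment of `C` gives an output, and every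
output given by an initial segment of `C` is the truth value of `x ∈ A`. -/
def Computes (f : List Bool × ℕ →. Bool) (C A : Set ℕ) : Prop :=
  ∀ x, (∃ n, (f (opre C n, x)).Dom) ∧ ∀ n y, y ∈ f (opre C n, x) → (y = true ↔ x ∈ A)

/-- A Turing operator: a partial computable function on pairs (initial segment of the oracle,
input). -/
def IsTuringOperator (f : List Bool × ℕ →. Bool) : Prop := Partrec f

/-- `A ≤_T C`. -/
def TRed (A C : Set ℕ) : Prop := ∃ f, IsTuringOperator f ∧ Computes f C A

/-- `A ≤_T^{ui} B`: one Turing operator computes `A` from every infinite subset of `B`. -/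
def UiRed (A B : Set ℕ) : Prop :=
  ∃ f, IsTuringOperator f ∧ ∀ C ⊆ B, C.Infinite → Computes f C A

/-- Introreducible sets. -/
def Introreducible (A : Set ℕ) : Prop :=
  A.Infinite ∧ ∀ C ⊆ A, C.Infinite → TRed A C

/-- Uniformly introreducible sets. -/
def UniformlyIntroreducible (A : Set ℕ) : Prop := A.Infinite ∧ UiRed A A

/-- `A` is a finite union of sets `A_i` with `A ≤_T^{ui} A_i`. -/
def FinitelyDecomposable (A : Set ℕ) : Prop :=
  ∃ (n : ℕ) (B : Fin (n + 1) → Set ℕ), A = ⋃ i, B i ∧ ∀ i, UiRed A (B i)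

/-- `Θ(C)` for a set `Θ` of pairs (finite list, number). -/
def enumOp (Θ : Set (List ℕ × ℕ)) (C : Set ℕ) : Set ℕ :=
  {x | ∃ u : List ℕ, (∀ a ∈ u, a ∈ C) ∧ (u, x) ∈ Θ}

/-- An enumeration operator: a computably enumerable set of pairs. -/
def IsEnumerationOperator (Θ : Set (List ℕ × ℕ)) : Prop := REPred (fun p => p ∈ Θ)

/-- `A ≤_e C`. -/
def ERed (A C : Set ℕ) : Prop := ∃ Θ, IsEnumerationOperator Θ ∧ enumOp Θ C = A

/-- `A ≤_e^{ui} B`: one enumeration operator enumerates `A` from every infinite subset of `B`. -/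
def UiERed (A B : Set ℕ) : Prop :=
  ∃ Θ, IsEnumerationOperator Θ ∧ ∀ C ⊆ B, C.Infinite → enumOp Θ C = A

/-- Introenumerable sets. -/
def Introenumerable (A : Set ℕ) : Prop :=
  A.Infinite ∧ ∀ C ⊆ A, C.Infinite → ERed A C

/-- `A` is a finite union of sets `A_i` with `A ≤_e^{ui} A_i`. -/
def FinitelyEDecomposable (A : Set ℕ) : Prop :=
  ∃ (n : ℕ) (B : Fin (n + 1) → Set ℕ), A = ⋃ i, B i ∧ ∀ i, UiERed A (B i)

end Pool.Agent.X97.IR
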