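import Pool.Agent.X97.IR.Comp
import Pool.Agent.X97.IR.Non

set_option autoImplicit false

/-! # The enumeration version -/

namespace Pool.Agent.X97.IR

theorem countable_partrec (α σ : Type) [Primcodable α] [Primcodable σ] :
    Countable {f : α →. σ // Partrec f} := by
  classical
  have h : ∀ f : {f : α →. σ // Partrec f}, ∃ c : Nat.Partrec.Code, c.eval = fun n =>
      Part.bind (Encodable.decode (α := α) n) fun a => (f.1 a).map Encodable.encode :=
    fun f => Nat.Partrec.Code.exists_code.1 f.2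
  choose c hc using h
  refine Function.Injective.countable (f := c) ?_
  intro f g hfg
  apply Subtype.ext
  funext a
  have h1 : (c f).eval (Encodable.encode a) = (c g).eval (Encodable.encode a) := by rw [hfg]
  rw [hc, hc] at h1
  simp only [Encodable.encodek, Part.coe_some, Part.bind_some] at h1
  apply Part.ext
  intro y
  have h2 : ∀ z, z ∈ (f.1 a).map Encodable.encode ↔ z ∈ (g.1 a).map Encodable.encode := by
    intro z; rw [h1]
  have h3 := h2 (Encodable.encode y)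
  rw [Part.mem_map_iff, Part.mem_map_iff] at h3
  constructor
  · intro hy
    obtain ⟨w, hw1, hw2⟩ := h3.1 ⟨y, hy, rfl⟩
    rwa [← Encodable.encode_injective hw2]
  · intro hy
    obtain ⟨w, hw1, hw2⟩ := h3.2 ⟨y, hy, rfl⟩
    rwa [← Encodable.encode_injective hw2]

/-- Enumeration operators as a type. -/
abbrev EOp : Type := {Θ : Set (List ℕ × ℕ) // IsEnumerationOperator Θ}

instance : Countable EOp := by
  have := countable_partrec (List ℕ × ℕ) Unit
  refine Function.Injective.countable (f := fun Θ : EOp =>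
    (⟨fun a => Part.assert (a ∈ Θ.1) fun _ => Part.some (), Θ.2⟩ :
      {f : List ℕ × ℕ →. Unit // Partrec f})) ?_
  intro Θ Θ' h
  apply Subtype.ext
  ext a
  have h1 := congrFun (congrArg Subtype.val h) a
  have h2 : (Part.assert (a ∈ Θ.1) fun _ => Part.some ()).Dom ↔
      (Part.assert (a ∈ Θ'.1) fun _ => Part.some ()).Dom := by
    have h3 : (Part.assert (a ∈ Θ.1) fun _ => Part.some ()) =
      (Part.assert (a ∈ Θ'.1) fun _ => Part.some ()) := h1
    rw [h3]
  simpa [Part.assert] using h2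

theorem enumOp_mono {Θ : Set (List ℕ × ℕ)} {C C' : Set ℕ} (h : C ⊆ C') :
    enumOp Θ C ⊆ enumOp Θ C' := by
  rintro x ⟨u, h1, h2⟩
  exact ⟨u, fun a ha => h (h1 a ha), h2⟩

theorem exists_min (P : List ℕ → Prop) (hmono : ∀ s t, s <:+ t → P s → P t) :
    ∀ s, P s → ∃ s', s' <:+ s ∧ P s' ∧ ∀ s'', s'' <:+ s' → s'' ≠ s' → ¬ P s'' := by
  intro s
  induction s with
  | nil =>
    intro h
    exact ⟨[], List.suffix_rfl, h, fun s'' h1 h2 => absurd (List.suffix_nil.1 h1) h2⟩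
  | cons a t ih =>
    intro h
    by_cases ht : P t
    · obtain ⟨s', h1, h2, h3⟩ := ih ht
      exact ⟨s', h1.trans (List.suffix_cons a t), h2, h3⟩
    · refine ⟨a :: t, List.suffix_rfl, h, fun s'' h1 h2 h3 => ?_⟩
      rcases List.suffix_cons_iff.1 h1 with h4 | h4
      · exact h2 h4
      · exact ht (hmono _ _ h4 h3)

theorem nondecE (Op : Type) [Countable Op] (fn : Op → Set (List ℕ × ℕ)) :
    ∃ X : ℕ → ℕ, ∀ (n : ℕ) (g : Fin n → Op) (B : Fin n → Set ℕ), As X ⊆ ⋃ j, B j →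
      ∃ j, ∃ C ⊆ B j, C ⊆ As X ∧ C.Infinite ∧ enumOp (fn (g j)) C ≠ As X := by
  classical
  obtain ⟨ops, hops⟩ := exists_surjective_nat (List Op)
  let M : ℕ → ℕ := fun r => (ops r).length
  let G : ℕ → List ℕ → ℕ → ℕ → List ℕ → Prop := fun r p j k s =>
    ∃ o, (ops r)[j]? = some o ∧ xk p k ∈ enumOp (fn o) {a | a ∈ s} ∧
      (∀ k' < M r + 1, xk p k' ∈ enumOp (fn o) {a | a ∈ s} → k' = k) ∧
      ∀ s', s' <:+ s → s' ≠ s → ∀ k' < M r + 1, xk p k' ∉ enumOp (fn o) {a | a ∈ s'}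
  have hc : ∀ r p, ∀ j < M r, ∀ k < M r + 1, ∀ k' < M r + 1, ∀ s t, s <:+ t →
      Desc t → G r p j k s → G r p j k' t → k = k' := by
    rintro r p j hj k hk k' hk' s t hst ht ⟨o, ho, h1, h2, h3⟩ ⟨o', ho', h1', h2', h3'⟩
    rw [ho] at ho'
    cases ho'
    by_cases hs : s = t
    · subst hs
      exact h2' k hk h1
    · exact absurd h1 (h3' s hst hs k hk)
  obtain ⟨X, hX⟩ := main hc
  refine ⟨X, fun n g B hB => ?_⟩
  obtain ⟨r, hr⟩ := hops (List.ofFn g)
  obtain ⟨i, hi, H, hH1, hH2, hH3⟩ := hX r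
  have hMr : M r = n := by simp [M, hr]
  have hcov : ∃ j, (H ∩ B j).Infinite := by
    by_contra hne
    push Not at hne
    apply hH2
    refine (Set.finite_iUnion fun j => hne j).subset ?_
    intro x hx
    obtain ⟨j, hj⟩ := Set.mem_iUnion.1 (hB (blk_subset X i (hH1 hx)))
    exact Set.mem_iUnion.2 ⟨j, hx, hj⟩
  obtain ⟨j, hj⟩ := hcov
  refine ⟨j, H ∩ B j, Set.inter_subset_right,
    fun x hx => blk_subset X i (hH1 hx.1), hj, fun hcomp => ?_⟩
  let P : List ℕ → Prop := fun s =>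
    ∃ k < M r + 1, xk (pre X i) k ∈ enumOp (fn (g j)) {a | a ∈ s}
  have hPmono : ∀ s t, s <:+ t → P s → P t := by
    rintro s t hst ⟨k, hk, h⟩
    exact ⟨k, hk, enumOp_mono (fun a ha => hst.subset ha) h⟩
  have hxi : xk (pre X i) (X i) ∈ enumOp (fn (g j)) (H ∩ B j) := by
    rw [hcomp]
    exact xk_mem.2 rfl
  obtain ⟨u, hu1, hu2⟩ := hxi
  obtain ⟨c, hcC, hc'⟩ := hj.exists_gt (u.toFinset.sup id)
  have hPs : P (seg (H ∩ B j) c) := by
    refine ⟨X i, by omega, u, fun a ha => ?_, hu2⟩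
    show a ∈ seg (H ∩ B j) c
    rw [mem_seg]
    refine ⟨?_, hu1 a ha⟩
    have : id a ≤ u.toFinset.sup id := Finset.le_sup (List.mem_toFinset.2 ha)
    simp only [id] at this
    omega
  obtain ⟨s, hs1, ⟨k, hk, hks⟩, hs3⟩ := exists_min P hPmono _ hPs
  have hsub : ∀ a ∈ s, a ∈ H ∩ B j := fun a ha => (mem_seg.1 (hs1.subset ha)).2
  have hkey : ∀ k', xk (pre X i) k' ∈ enumOp (fn (g j)) {a | a ∈ s} → k' = X i := by
    intro k' h
    have h1 : xk (pre X i) k' ∈ As X := by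
      rw [← hcomp]
      exact enumOp_mono (fun a ha => hsub a ha) h
    exact xk_mem.1 h1
  have hds : Desc s := by
    obtain ⟨v, hv⟩ := hs1
    have := desc_seg (H ∩ B j) c
    rw [← hv] at this
    exact (List.pairwise_append.1 this).2.1
  refine hH3 s hds (fun x hx => (hsub x hx).1) j (by rw [hMr]; exact j.2) ⟨g j, ?_, ?_, ?_, ?_⟩
  · rw [hr]
    simp
  · rw [← hkey k hks]; exact hks
  · intro k' _ h
    exact hkey k' h
  · intro s' h1 h2 k' hk' h3
    exact hs3 s' h1 h2 ⟨k', hk', h3⟩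

/-- The enumeration operator. -/
def opE (i0 k0 : ℕ) : Set (List ℕ × ℕ) := {p | ∃ b ∈ p.1, okans i0 k0 b p.2 = some true}

theorem isEnumerationOperator_opE (i0 k0 : ℕ) : IsEnumerationOperator (opE i0 k0) := by
  have h1 : PrimrecRel (fun b x : ℕ => okans i0 k0 b x = some true) :=
    Primrec.eq.comp (primrec_okans i0 k0) (Primrec.const (some true))
  have h2 : PrimrecRel (fun (L : List ℕ) (x : ℕ) => ∃ b ∈ L, okans i0 k0 b x = some true) :=
    h1.exists_mem_list
  have h3 : PrimrecPred (fun p : List ℕ × ℕ => ∃ b ∈ p.1, okans i0 k0 b p.2 = some true) := h2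
  obtain ⟨hd, h4⟩ := h3
  have h5 : ComputablePred (fun p : List ℕ × ℕ => ∃ b ∈ p.1, okans i0 k0 b p.2 = some true) :=
    ⟨hd, h4.to_comp⟩
  exact h5.to_re

theorem introenumerable_As (X : ℕ → ℕ) : Introenumerable (As X) := by
  refine ⟨As_infinite X, fun C hC hinf => ?_⟩
  obtain ⟨i0, h⟩ := exists_param X C hC hinf
  refine ⟨opE i0 (X i0), isEnumerationOperator_opE _ _, ?_⟩
  ext x
  constructor
  · rintro ⟨u, hu, b, hb, hbx⟩
    obtain ⟨i, m, h1, h2⟩ := hC (hu b hb)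
    subst h2
    exact (okans_enc rfl h1 hbx).1 rfl
  · intro hx
    obtain ⟨b, hb, y, hy⟩ := h x
    obtain ⟨i, m, h1, h2⟩ := hC hb
    have hy' := hy
    rw [h2] at hy'
    have := (okans_enc rfl h1 hy').2 hx
    subst this
    exact ⟨[b], by simpa using hb, b, by simp, hy⟩

theorem exists_not_finitelyEDecomposable :
    ∃ A : Set ℕ, Introenumerable A ∧ ¬ FinitelyEDecomposable A := by
  obtain ⟨X, hX⟩ := nondecE EOp (fun o => o.1)
  refine ⟨As X, introenumerable_As X, ?_⟩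
  rintro ⟨n, B, hA, hB⟩
  choose f hf using hB
  obtain ⟨j, C, hC1, _, hC3, hC4⟩ := hX (n + 1) (fun j => ⟨f j, (hf j).1⟩) B hA.subset
  exact hC4 ((hf j).2 C hC1 hC3)

end Pool.Agent.X97.IR
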