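import Pool.Agent.X97.IR.Ram

set_option autoImplicit false

/-! # Construction of the real: nonmeagre forcing -/

namespace Pool.Agent.X97.IR

open Set Topology

/-- The first `n` values. -/
def pre (X : ℕ → ℕ) (n : ℕ) : List ℕ := (List.range n).map X

/-- The first `n` values with the value at `i` masked. -/
def msk (X : ℕ → ℕ) (i n : ℕ) : List ℕ := (List.range n).map (fun m => if m = i then 0 else X m)

/-- Block `i`. -/
def blk (X : ℕ → ℕ) (i : ℕ) : Set ℕ :=
  {b | ∃ n, i < n ∧ b = Encodable.encode (i, msk X i n)}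

theorem pre_length (X : ℕ → ℕ) (n : ℕ) : (pre X n).length = n := by simp [pre]

theorem msk_length (X : ℕ → ℕ) (i n : ℕ) : (msk X i n).length = n := by simp [msk]

theorem pre_eq_iff {X Y : ℕ → ℕ} {n : ℕ} : pre X n = pre Y n ↔ ∀ m < n, X m = Y m := by
  unfold pre
  rw [List.map_inj_left]
  simp

theorem msk_congr {X Y : ℕ → ℕ} {i n : ℕ} (h : ∀ m < n, m ≠ i → X m = Y m) :
    msk X i n = msk Y i n := by
  unfold msk
  rw [List.map_inj_left]
  intro m hm
  rw [List.mem_range] at hm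
  by_cases hmi : m = i
  · simp [hmi]
  · simp [hmi, h m hm hmi]

theorem blk_infinite (X : ℕ → ℕ) (i : ℕ) : (blk X i).Infinite := by
  have hinj : Function.Injective (fun n => Encodable.encode (i, msk X i (i + 1 + n))) := by
    intro a b hab
    have h1 := Encodable.encode_injective hab
    have h2 : msk X i (i + 1 + a) = msk X i (i + 1 + b) := (Prod.mk.inj h1).2
    have h3 := congrArg List.length h2
    rw [msk_length, msk_length] at h3
    omega
  refine (Set.infinite_range_of_injective hinj).mono ?_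
  rintro _ ⟨n, rfl⟩
  exact ⟨i + 1 + n, by omega, rfl⟩

/-- Cylinders. -/
def cyl (p : List ℕ) : Set (ℕ → ℕ) := {X | pre X p.length = p}

theorem mem_cyl {p : List ℕ} {X : ℕ → ℕ} : X ∈ cyl p ↔ pre X p.length = p := Iff.rfl

theorem pre_prefix (X : ℕ → ℕ) {n m : ℕ} (h : n ≤ m) : pre X n <+: pre X m := by
  obtain ⟨d, rfl⟩ := Nat.exists_eq_add_of_le h
  unfold pre
  rw [List.range_add, List.map_append]
  exact List.prefix_append _ _

theorem cyl_mono {p q : List ℕ} (h : p <+: q) : cyl q ⊆ cyl p := by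
  intro X hX
  rw [mem_cyl] at *
  have h1 := pre_prefix X h.length_le
  rw [hX] at h1
  exact (List.prefix_of_prefix_length_le h1 h (by rw [pre_length])).eq_of_length
    (by rw [pre_length])

theorem isOpen_cyl (p : List ℕ) : IsOpen (cyl p) := by
  have : cyl p = ⋂ m ∈ Finset.range p.length, {X : ℕ → ℕ | X m = p.getD m 0} := by
    ext X
    simp only [mem_cyl, Finset.mem_range, Set.mem_iInter, Set.mem_ofPred_eq]
    constructor
    · intro h m hm
      rw [← h]
      simp [pre, hm]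
    · intro h
      apply List.ext_getElem
      · rw [pre_length]
      · intro m h1 h2
        have := h m h2
        simp only [pre, List.getElem_map, List.getElem_range]
        rw [this]
        simp [h2]
  rw [this]
  refine isOpen_biInter_finset fun m _ => ?_
  have hcm : Continuous (fun X : ℕ → ℕ => X m) := continuous_apply m
  exact (isOpen_discrete ({p.getD m 0} : Set ℕ)).preimage hcm

theorem isClosed_cyl (p : List ℕ) : IsClosed (cyl p) := by
  have : cyl p = ⋂ m ∈ Finset.range p.length, {X : ℕ → ℕ | X m = p.getD m 0} := by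
    ext X
    simp only [mem_cyl, Finset.mem_range, Set.mem_iInter, Set.mem_ofPred_eq]
    constructor
    · intro h m hm
      rw [← h]
      simp [pre, hm]
    · intro h
      apply List.ext_getElem
      · rw [pre_length]
      · intro m h1 h2
        have := h m h2
        simp only [pre, List.getElem_map, List.getElem_range]
        rw [this]
        simp [h2]
  rw [this]
  refine isClosed_biInter fun m _ => ?_
  have hcm : Continuous (fun X : ℕ → ℕ => X m) := continuous_apply m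
  exact (isClosed_discrete ({p.getD m 0} : Set ℕ)).preimage hcm

theorem cyl_nonempty (p : List ℕ) : (cyl p).Nonempty := by
  refine ⟨fun m => p.getD m 0, ?_⟩
  rw [mem_cyl]
  apply List.ext_getElem
  · rw [pre_length]
  · intro m h1 h2
    simp [pre, h2]

theorem exists_cyl {U : Set (ℕ → ℕ)} (hU : IsOpen U) {X : ℕ → ℕ} (hX : X ∈ U) :
    ∃ n, ∀ m, n ≤ m → cyl (pre X m) ⊆ U := by
  obtain ⟨I, u, h1, h2⟩ := isOpen_pi_iff.1 hU X hX
  obtain ⟨n, hn⟩ : ∃ n, ∀ a ∈ I, a < n := ⟨I.sup id + 1, fun a ha =>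
    Nat.lt_succ_of_le (Finset.le_sup (f := id) ha)⟩
  refine ⟨n, fun m hm Y hY => h2 ?_⟩
  intro a ha
  have hlt : a < m := lt_of_lt_of_le (hn a ha) hm
  rw [mem_cyl, pre_length, pre_eq_iff] at hY
  have := hY a hlt
  rw [this]
  exact (h1 a ha).2

/-- `T` is nonmeagre in every cylinder inside `cyl p`. -/
def Large (T : Set (ℕ → ℕ)) (p : List ℕ) : Prop := ∀ q, p <+: q → ¬ IsMeagre (T ∩ cyl q)

theorem Large.mono {T : Set (ℕ → ℕ)} {p q : List ℕ} (h : Large T p) (hq : p <+: q) :
    Large T q := fun r hr => h r (hq.trans hr)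

theorem exists_large {T : Set (ℕ → ℕ)} {p : List ℕ} (h : ¬ IsMeagre (T ∩ cyl p)) :
    ∃ q, p <+: q ∧ Large T q := by
  by_contra hne
  unfold Large at hne
  push Not at hne
  apply h
  let Q : Set (List ℕ) := {q | p <+: q ∧ IsMeagre (T ∩ cyl q)}
  have hQc : Q.Countable := Set.to_countable Q
  let D : Set (ℕ → ℕ) := ⋃ q ∈ Q, cyl q
  have hDo : IsOpen (D ∪ (cyl p)ᶜ) :=
    (isOpen_biUnion fun q _ => isOpen_cyl q).union (isClosed_cyl p).isOpen_compl
  have hDd : Dense (D ∪ (cyl p)ᶜ) := by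
    rw [dense_iff_inter_open]
    intro U hU ⟨X, hX⟩
    by_cases hXp : X ∈ cyl p
    · obtain ⟨n, hn⟩ := exists_cyl hU hX
      let m := max n p.length
      have hpm : p <+: pre X m := by
        have := pre_prefix X (le_max_right n p.length)
        rwa [mem_cyl.1 hXp] at this
      obtain ⟨q, hq1, hq2⟩ := hne (pre X m) hpm
      obtain ⟨Y, hY⟩ := cyl_nonempty q
      refine ⟨Y, hn m (le_max_left _ _) (cyl_mono hq1 hY), Or.inl ?_⟩
      exact Set.mem_biUnion (show q ∈ Q from ⟨hpm.trans hq1, hq2⟩) hY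
    · exact ⟨X, hX, Or.inr hXp⟩
  have hres : (D ∪ (cyl p)ᶜ) ∈ residual (ℕ → ℕ) := residual_of_dense_open hDo hDd
  have hm1 : IsMeagre ((D ∪ (cyl p)ᶜ)ᶜ) := by
    unfold IsMeagre
    rwa [compl_compl]
  have hm2 : IsMeagre (⋃ q ∈ Q, T ∩ cyl q) := isMeagre_biUnion hQc fun q hq => hq.2
  refine (hm2.union hm1).mono ?_
  rintro X ⟨hXT, hXp⟩
  by_cases hXD : X ∈ D
  · left
    obtain ⟨q, hq, hXq⟩ := Set.mem_iUnion₂.1 hXD
    exact Set.mem_biUnion hq ⟨hXT, hXq⟩
  · right
    intro hc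
    rcases hc with hc | hc
    · exact hXD hc
    · exact hc hXp

theorem not_meagre_iUnion {T : Set (ℕ → ℕ)} {C : Set (ℕ → ℕ)} {F : ℕ → Set (ℕ → ℕ)}
    (h : ¬ IsMeagre (T ∩ C)) (hT : T ∩ C ⊆ ⋃ b, F b) : ∃ b, ¬ IsMeagre (F b ∩ C) := by
  by_contra hne
  push Not at hne
  apply h
  refine (isMeagre_iUnion hne).mono ?_
  intro X hX
  obtain ⟨b, hb⟩ := Set.mem_iUnion.1 (hT hX)
  exact Set.mem_iUnion.2 ⟨b, hb, hX.2⟩

theorem isOpenMap_update (i k : ℕ) :
    IsOpenMap (fun X : ℕ → ℕ => Function.update X i k) := by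
  intro U hU
  have : (fun X : ℕ → ℕ => Function.update X i k) '' U =
      {X | X i = k} ∩ ⋃ v, {X | Function.update X i v ∈ U} := by
    ext X
    constructor
    · rintro ⟨Y, hY, rfl⟩
      refine ⟨by simp, Set.mem_iUnion.2 ⟨Y i, ?_⟩⟩
      simpa using hY
    · rintro ⟨h1, h2⟩
      obtain ⟨v, hv⟩ := Set.mem_iUnion.1 h2
      refine ⟨Function.update X i v, hv, ?_⟩
      have h1' : X i = k := h1
      simp [← h1']
  rw [this]
  refine IsOpen.inter ?_ (isOpen_iUnion fun v => ?_)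
  · have hcm : Continuous (fun X : ℕ → ℕ => X i) := continuous_apply i
    exact (isOpen_discrete ({k} : Set ℕ)).preimage hcm
  · exact hU.preimage (continuous_id.update i continuous_const)

section Main

variable (M : ℕ → ℕ) (G : ℕ → List ℕ → ℕ → ℕ → List ℕ → Prop)

/-- `E` can be continued to a witness for requirement `r` in block `i`. -/
def S (r i : ℕ) (E : Finset ℕ) : Set (ℕ → ℕ) :=
  {X | X i ≤ M r ∧ ∃ H : Set ℕ, H.Infinite ∧ ↑E ⊆ H ∧ H ⊆ blk X i ∧
    ∀ s, Desc s → (∀ x ∈ s, x ∈ H) → ∀ j < M r, ¬ G r (pre X i) j (X i) s}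

/-- Conditions. -/
structure Cond where
  /-- stem -/
  tau : List ℕ
  /-- states of the requirements -/
  st : ℕ → Option (ℕ × Finset ℕ)
  ok : ∀ r i E, st r = some (i, E) → Large (S M G r i E) tau ∧ i < tau.length

instance : Preorder (Cond M G) where
  le c c' := c.tau <+: c'.tau ∧ ∀ r i E, c.st r = some (i, E) →
    ∃ E', c'.st r = some (i, E') ∧ E ⊆ E'
  le_refl c := ⟨List.prefix_rfl, fun r i E h => ⟨E, h, Finset.Subset.refl _⟩⟩
  le_trans a b c := by
    rintro ⟨h1, h2⟩ ⟨h3, h4⟩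
    refine ⟨h1.trans h3, fun r i E h => ?_⟩
    obtain ⟨E', h5, h6⟩ := h2 r i E h
    obtain ⟨E'', h7, h8⟩ := h4 r i E' h5
    exact ⟨E'', h7, h6.trans h8⟩

variable {M G}

theorem Cond.extend (c : Cond M G) (q : List ℕ) (hq : c.tau <+: q) :
    ∃ c', c ≤ c' ∧ c'.tau = q ∧ c'.st = c.st :=
  ⟨⟨q, c.st, fun r i E h => ⟨(c.ok r i E h).1.mono hq, (c.ok r i E h).2.trans_le hq.length_le⟩⟩,
    ⟨hq, fun r i E h => ⟨E, h, Finset.Subset.refl _⟩⟩, rfl, rfl⟩

theorem Cond.long (c : Cond M G) (n : ℕ) : ∃ c', c ≤ c' ∧ n ≤ c'.tau.length := by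
  obtain ⟨c', h1, h2, _⟩ := c.extend (c.tau ++ List.replicate n 0) (List.prefix_append _ _)
  exact ⟨c', h1, by rw [h2]; simp⟩

theorem Cond.upd (c : Cond M G) (r i : ℕ) (E : Finset ℕ) (q : List ℕ) (hq : c.tau <+: q)
    (hL : Large (S M G r i E) q) (hi : i < q.length)
    (hold : ∀ i' E', c.st r = some (i', E') → i' = i ∧ E' ⊆ E) :
    ∃ c', c ≤ c' ∧ c'.st r = some (i, E) := by
  refine ⟨⟨q, Function.update c.st r (some (i, E)), ?_⟩, ⟨hq, ?_⟩, by simp⟩
  · intro r' i' E' h
    by_cases hr : r' = r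
    · subst hr
      simp only [Function.update_self, Option.some.injEq, Prod.mk.injEq] at h
      obtain ⟨rfl, rfl⟩ := h
      exact ⟨hL, hi⟩
    · rw [Function.update_of_ne hr] at h
      exact ⟨(c.ok r' i' E' h).1.mono hq, (c.ok r' i' E' h).2.trans_le hq.length_le⟩
  · intro r' i' E' h
    by_cases hr : r' = r
    · subst hr
      obtain ⟨rfl, h2⟩ := hold i' E' h
      exact ⟨E, by simp, h2⟩
    · exact ⟨E', by simpa [Function.update_of_ne hr] using h, Finset.Subset.refl _⟩

theorem Cond.start (hc : ∀ r p, ∀ j < M r, ∀ k < M r + 1, ∀ k' < M r + 1, ∀ s t, s <:+ t →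
      Desc t → G r p j k s → G r p j k' t → k = k')
    (c : Cond M G) (r : ℕ) : ∃ c', c ≤ c' ∧ ∃ i E, c'.st r = some (i, E) := by
  cases hst : c.st r with
  | some iE => exact ⟨c, le_refl c, iE.1, iE.2, by rw [hst]⟩
  | none =>
    have hcov : Set.univ ∩ cyl c.tau ⊆ ⋃ k, (fun X : ℕ → ℕ => Function.update X c.tau.length k) ⁻¹'
        (S M G r c.tau.length ∅ ∩ cyl c.tau) := by
      rintro X ⟨-, hX⟩
      obtain ⟨k, hk, H, hH1, hH2, hH3⟩ := ramsey (blk X c.tau.length) (blk_infinite X _)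
        (M r) (M r + 1) (Nat.lt_succ_self _) (G r c.tau) (hc r c.tau)
      have hpre : pre (Function.update X c.tau.length k) c.tau.length = c.tau := by
        rw [← mem_cyl.1 hX]
        rw [pre_length, pre_eq_iff]
        intro m hm
        rw [Function.update_of_ne (by omega)]
      have hblk : blk (Function.update X c.tau.length k) c.tau.length = blk X c.tau.length := by
        ext b
        simp only [blk, Set.mem_ofPred_eq]
        have : ∀ n, msk (Function.update X c.tau.length k) c.tau.length n =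
            msk X c.tau.length n := fun n => msk_congr fun m _ hm => by
          rw [Function.update_of_ne hm]
        simp only [this]
      refine Set.mem_iUnion.2 ⟨k, ?_, hpre⟩
      refine ⟨by simp; omega, H, hH2, by simp, by rw [hblk]; exact hH1, ?_⟩
      intro s hs hsH j hj
      rw [hpre]
      simpa using hH3 s hs hsH j hj
    have hnm : ¬ IsMeagre (Set.univ ∩ cyl c.tau) := by
      rw [Set.univ_inter]
      exact not_isMeagre_of_isOpen (isOpen_cyl _) (cyl_nonempty _)
    have hcov' : ∃ k, ¬ IsMeagre ((fun X : ℕ → ℕ => Function.update X c.tau.length k) ⁻¹'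
        (S M G r c.tau.length ∅ ∩ cyl c.tau)) := by
      by_contra hne
      push Not at hne
      exact hnm ((isMeagre_iUnion hne).mono hcov)
    obtain ⟨k, hk⟩ := hcov'
    have hk' : ¬ IsMeagre (S M G r c.tau.length ∅ ∩ cyl c.tau) := fun h =>
      hk (h.preimage_of_isOpenMap (continuous_id.update _ continuous_const)
        (isOpenMap_update _ _))
    obtain ⟨q, hq1, hq2⟩ := exists_large hk'
    have hq3 : c.tau <+: q ++ [0] := hq1.trans (List.prefix_append _ _)
    obtain ⟨c', h1, h2⟩ := c.upd r c.tau.length ∅ (q ++ [0]) hq3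
      (hq2.mono (List.prefix_append _ _))
      (by have := hq1.length_le; simp; omega)
      (by intro i' E' h; rw [hst] at h; cases h)
    exact ⟨c', h1, _, _, h2⟩

theorem Cond.grow (c : Cond M G) (r i : ℕ) (E : Finset ℕ) (h : c.st r = some (i, E)) :
    ∃ c', c ≤ c' ∧ ∃ E', c'.st r = some (i, E') ∧ E.card + 1 ≤ E'.card := by
  classical
  obtain ⟨hL, hi⟩ := c.ok r i E h
  have h1 := hL c.tau List.prefix_rfl
  have hcov : S M G r i E ∩ cyl c.tau ⊆
      ⋃ b, (if b ∉ E then S M G r i (insert b E) else ∅) := by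
    rintro X ⟨⟨hX1, H, hH1, hH2, hH3, hH4⟩, -⟩
    obtain ⟨b, hbH, hbE⟩ := hH1.exists_notMem_finset E
    refine Set.mem_iUnion.2 ⟨b, ?_⟩
    rw [if_pos hbE]
    refine ⟨hX1, H, hH1, ?_, hH3, hH4⟩
    intro x hx
    rw [Finset.coe_insert] at hx
    rcases hx with rfl | hx
    · exact hbH
    · exact hH2 hx
  obtain ⟨b, hb⟩ := not_meagre_iUnion h1 hcov
  by_cases hbE : b ∉ E
  · rw [if_pos hbE] at hb
    obtain ⟨q, hq1, hq2⟩ := exists_large hb
    obtain ⟨c', h2, h3⟩ := c.upd r i (insert b E) q hq1 hq2 (hi.trans_le hq1.length_le)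
      (by
        intro i' E' h'
        rw [h] at h'
        simp only [Option.some.injEq, Prod.mk.injEq] at h'
        obtain ⟨rfl, rfl⟩ := h'
        exact ⟨rfl, Finset.subset_insert _ _⟩)
    refine ⟨c', h2, _, h3, ?_⟩
    rw [Finset.card_insert_of_notMem hbE]
  · rw [if_neg hbE] at hb
    exact absurd (by simpa using IsMeagre.empty) hb

theorem Cond.growN (c : Cond M G) (r i : ℕ) (E : Finset ℕ) (h : c.st r = some (i, E)) (n : ℕ) :
    ∃ c', c ≤ c' ∧ ∃ E', c'.st r = some (i, E') ∧ n ≤ E'.card := by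
  induction n with
  | zero => exact ⟨c, le_refl c, E, h, Nat.zero_le _⟩
  | succ n ih =>
    obtain ⟨c', h1, E', h2, h3⟩ := ih
    obtain ⟨c'', h4, E'', h5, h6⟩ := c'.grow r i E' h2
    exact ⟨c'', h1.trans h4, E'', h5, by omega⟩

theorem main (hc : ∀ r p, ∀ j < M r, ∀ k < M r + 1, ∀ k' < M r + 1, ∀ s t, s <:+ t →
      Desc t → G r p j k s → G r p j k' t → k = k') :
    ∃ X : ℕ → ℕ, ∀ r, ∃ i, X i ≤ M r ∧ ∃ H ⊆ blk X i, H.Infinite ∧
      ∀ s, Desc s → (∀ x ∈ s, x ∈ H) → ∀ j < M r, ¬ G r (pre X i) j (X i) s := by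
  classical
  let D : ℕ × ℕ → Order.Cofinal (Cond M G) := fun rn =>
    { carrier := {c | rn.2 ≤ c.tau.length ∧ ∃ i E, c.st rn.1 = some (i, E) ∧ rn.2 ≤ E.card}
      isCofinal := by
        intro c
        obtain ⟨c1, h1, i, E, h2⟩ := c.start hc rn.1
        obtain ⟨c2, h3, E', h4, h5⟩ := c1.growN rn.1 i E h2 rn.2
        obtain ⟨c3, h6, h7⟩ := c2.long rn.2
        obtain ⟨E'', h8, h9⟩ := h6.2 rn.1 i E' h4
        exact ⟨c3, ⟨h7, i, E'', h8, h5.trans (Finset.card_le_card h9)⟩,
          h1.trans (h3.trans h6)⟩ }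
  let c0 : Cond M G := ⟨[], fun _ => none, by intro r i E h; cases h⟩
  let c : ℕ → Cond M G := Order.sequenceOfCofinals c0 D
  have hmono : Monotone c := Order.sequenceOfCofinals.monotone c0 D
  have hmeet : ∀ rn, ∃ n, c n ∈ D rn := fun rn =>
    ⟨_, Order.sequenceOfCofinals.encode_mem c0 D rn⟩
  have hlen : ∀ m, ∃ n, m < (c n).tau.length := by
    intro m
    obtain ⟨n, hn⟩ := hmeet (0, m + 1)
    exact ⟨n, hn.1⟩
  choose nn hnn using hlen
  let X : ℕ → ℕ := fun m => (c (nn m)).tau[m]'(hnn m)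
  have hX : ∀ n m (h : m < (c n).tau.length), (c n).tau[m] = X m := by
    intro n m h
    rcases le_total n (nn m) with hle | hle
    · have := (hmono hle).1
      exact this.getElem h
    · have := (hmono hle).1
      exact (this.getElem (hnn m)).symm
  have hXc : ∀ n, X ∈ cyl (c n).tau := by
    intro n
    rw [mem_cyl]
    apply List.ext_getElem
    · rw [pre_length]
    · intro m h1 h2
      simp only [pre, List.getElem_map, List.getElem_range]
      exact (hX n m h2).symm
  refine ⟨X, fun r => ?_⟩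
  obtain ⟨n0, -, i, E0, hst0, -⟩ := hmeet (r, 0)
  have hst : ∀ n, n0 ≤ n → ∃ E, (c n).st r = some (i, E) ∧ E0 ⊆ E := fun n hn =>
    (hmono hn).2 r i E0 hst0
  have hwit : ∀ n E, (c n).st r = some (i, E) → ∃ Y ∈ S M G r i E, ∀ m < (c n).tau.length,
      Y m = X m := by
    intro n E h
    obtain ⟨Y, hY1, hY2⟩ := nonempty_of_not_isMeagre
      (((c n).ok r i E h).1 (c n).tau List.prefix_rfl)
    refine ⟨Y, hY1, ?_⟩
    have h1 := mem_cyl.1 hY2
    have h2 := mem_cyl.1 (hXc n)
    exact pre_eq_iff.1 (h1.trans h2.symm)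
  have hpreX : ∀ n E, (c n).st r = some (i, E) → ∀ Y : ℕ → ℕ,
      (∀ m < (c n).tau.length, Y m = X m) → pre Y i = pre X i ∧ Y i = X i := by
    intro n E h Y hY
    have hi := ((c n).ok r i E h).2
    exact ⟨pre_eq_iff.2 fun m hm => hY m (hm.trans hi), hY i hi⟩
  let Hs : Set ℕ := {b | ∃ n E, (c n).st r = some (i, E) ∧ b ∈ E}
  have hdir : ∀ n E, (c n).st r = some (i, E) → ∀ n', n ≤ n' → ∃ E', (c n').st r = some (i, E') ∧
      E ⊆ E' := fun n E h n' hn => (hmono hn).2 r i E h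
  refine ⟨i, ?_, Hs, ?_, ?_, ?_⟩
  · obtain ⟨Y, hY1, hY2⟩ := hwit n0 E0 hst0
    rw [← (hpreX n0 E0 hst0 Y hY2).2]
    exact hY1.1
  · rintro b ⟨n, E, h, hb⟩
    -- the length of the list coded by `b`
    let L : ℕ := ((Encodable.decode (α := ℕ × List ℕ) b).getD (0, [])).2.length
    let n' := max n (nn L)
    obtain ⟨E', h1, h2⟩ := hdir n E h n' (le_max_left _ _)
    obtain ⟨Y, ⟨hY1, H, _, hH2, hH3, _⟩, hY2⟩ := hwit n' E' h1
    obtain ⟨l, hl1, hl2⟩ := hH3 (hH2 (h2 hb))
    have hLl : L = l := by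
      show ((Encodable.decode (α := ℕ × List ℕ) b).getD (0, [])).2.length = l
      rw [hl2, Encodable.encodek]
      simp [msk_length]
    have hlt : l < (c n').tau.length := by
      rw [← hLl]
      exact (hnn L).trans_le (hmono (le_max_right _ _)).1.length_le
    refine ⟨l, hl1, ?_⟩
    rw [hl2]
    congr 2
    exact msk_congr fun m hm _ => hY2 m (hm.trans hlt)
  · intro hfin
    obtain ⟨n, -, i', E, h1, h2⟩ := hmeet (r, hfin.toFinset.card + 1)
    have hi' : (c (max n0 n)).st r ≠ none ∧ i' = i := by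
      obtain ⟨E1, h3, _⟩ := hst (max n0 n) (le_max_left _ _)
      obtain ⟨E2, h4, _⟩ := (hmono (le_max_right n0 n)).2 r i' E h1
      rw [h3] at h4
      simp only [Option.some.injEq, Prod.mk.injEq] at h4
      exact ⟨by rw [h3]; simp, h4.1.symm⟩
    obtain ⟨-, rfl⟩ := hi'
    have hsub : E ⊆ hfin.toFinset := by
      intro b hb
      rw [Set.Finite.mem_toFinset]
      exact ⟨n, E, h1, hb⟩
    have := Finset.card_le_card hsub
    have h2' : hfin.toFinset.card + 1 ≤ E.card := h2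
    omega
  · intro s hs hsH j hj
    have hcol : ∀ s : List ℕ, (∀ x ∈ s, x ∈ Hs) → ∃ n E, (c n).st r = some (i, E) ∧
        ∀ x ∈ s, x ∈ E := by
      intro s
      induction s with
      | nil => intro _; exact ⟨n0, E0, hst0, by simp⟩
      | cons a s ih =>
        intro h
        obtain ⟨n1, E1, h1, h2⟩ := h a List.mem_cons_self
        obtain ⟨n2, E2, h3, h4⟩ := ih fun x hx => h x (List.mem_cons_of_mem _ hx)
        obtain ⟨E1', h5, h6⟩ := hdir n1 E1 h1 (max n1 n2) (le_max_left _ _)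
        obtain ⟨E2', h7, h8⟩ := hdir n2 E2 h3 (max n1 n2) (le_max_right _ _)
        rw [h5] at h7
        simp only [Option.some.injEq, Prod.mk.injEq, true_and] at h7
        subst h7
        refine ⟨max n1 n2, E1', h5, fun x hx => ?_⟩
        rcases List.mem_cons.1 hx with rfl | hx
        · exact h6 h2
        · exact h8 (h4 x hx)
    obtain ⟨n, E, h1, h2⟩ := hcol s hsH
    obtain ⟨Y, ⟨hY1, H, _, hH2, hH3, hH4⟩, hY2⟩ := hwit n E h1
    obtain ⟨h3, h4⟩ := hpreX n E h1 Y hY2
    have := hH4 s hs (fun x hx => hH2 (h2 x hx)) j hj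
    rwa [h3, h4] at this

end Main

end Pool.Agent.X97.IR
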