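import Pool.Agent.X97.IR.Defs
import Pool.Agent.X97.IR.Forc

set_option autoImplicit false

/-! # The sets `As X` are introreducible and introenumerable -/

namespace Pool.Agent.X97.IR

/-- The set of codes of masked initial segments. -/
def As (X : ℕ → ℕ) : Set ℕ := {b | ∃ i n, i < n ∧ b = Encodable.encode (i, msk X i n)}

theorem blk_subset (X : ℕ → ℕ) (i : ℕ) : blk X i ⊆ As X := by
  rintro b ⟨n, h1, h2⟩
  exact ⟨i, n, h1, h2⟩

/-- The list of masked guesses. -/
def guess (i0 k0 : ℕ) (l : List ℕ) (i' L : ℕ) : List ℕ :=
  (List.range L).map (fun m => if m = i' then 0 else if m = i0 then k0 else l.getD m 0)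

/-- The answer given by an element `b`. -/
def okans (i0 k0 : ℕ) (b x : ℕ) : Option Bool :=
  match (Encodable.decode b : Option (ℕ × List ℕ)), (Encodable.decode x : Option (ℕ × List ℕ)) with
  | some p, some q =>
    if q.2.length ≤ p.2.length ∧ (p.1 = i0 ∨ q.2.length ≤ p.1) then
      some (decide (q.1 < q.2.length ∧ q.2 = guess i0 k0 p.2 q.1 q.2.length))
    else none
  | some _, none => some false
  | none, _ => none

theorem okans_enc {i0 k0 : ℕ} {X : ℕ → ℕ} (hk : k0 = X i0) {i n x : ℕ} (hin : i < n) {y : Bool}
    (h : okans i0 k0 (Encodable.encode (i, msk X i n)) x = some y) : y = true ↔ x ∈ As X := by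
  unfold okans at h
  rw [Encodable.encodek] at h
  cases hx : (Encodable.decode x : Option (ℕ × List ℕ)) with
  | none =>
    rw [hx] at h
    simp only [Option.some.injEq] at h
    subst h
    simp only [Bool.false_eq_true, false_iff]
    rintro ⟨i', n', -, rfl⟩
    rw [Encodable.encodek] at hx
    cases hx
  | some q =>
    rw [hx] at h
    simp only at h
    split_ifs at h with hc
    simp only [Option.some.injEq] at h
    obtain ⟨hc1, hc2⟩ := hc
    rw [msk_length] at hc1
    have hg : guess i0 k0 (msk X i n) q.1 q.2.length = msk X q.1 q.2.length := by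
      unfold guess msk
      rw [List.map_inj_left]
      intro m hm
      rw [List.mem_range] at hm
      by_cases hm1 : m = q.1
      · simp [hm1]
      · rw [if_neg hm1, if_neg hm1]
        by_cases hm2 : m = i0
        · rw [if_pos hm2, hm2, hk]
        · rw [if_neg hm2]
          have hmi : m ≠ i := by
            intro hmi
            rcases hc2 with h2 | h2
            · exact hm2 (hmi.trans h2)
            · omega
          have hmn : m < n := by omega
          simp [List.getD_eq_getElem?_getD, hmn, hmi]
    rw [hg] at h
    rw [← h]
    simp only [decide_eq_true_eq]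
    have hxe : x = Encodable.encode q := (Encodable.mem_decode₂.1
      (by
        rw [Encodable.mem_decode₂']
        exact ⟨hx, by
          have := Encodable.encode_injective (α := ℕ × List ℕ)
          have h5 := (Primcodable.prim (ℕ × List ℕ))
          exact (Denumerable.encode_ofNat (α := ℕ × List ℕ) x ▸ by
            have := Denumerable.decode_eq_ofNat (ℕ × List ℕ) x
            rw [hx] at this
            simp only [Option.some.injEq] at this
            rw [this])⟩)).symm
    constructor
    · rintro ⟨h1, h2⟩
      exact ⟨q.1, q.2.length, h1, by rw [hxe, ← h2]⟩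
    · rintro ⟨i', n', h1, h2⟩
      have h3 : q = (i', msk X i' n') := by
        rw [h2, Encodable.encodek] at hx
        exact (Option.some.inj hx).symm
      subst h3
      simp only [msk_length]
      exact ⟨h1, trivial⟩

end Pool.Agent.X97.IR
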