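import Mathlib

set_option autoImplicit false

/-! # A Galvin type lemma with an ultrafilter

Finite sets of naturals are strictly decreasing lists; an initial segment is a suffix. -/

namespace Pool.Agent.X97.IR

/-- Strictly decreasing lists. -/
def Desc (s : List ℕ) : Prop := s.Pairwise (fun a b => b < a)

theorem desc_nil : Desc [] := List.Pairwise.nil

theorem desc_cons {n : ℕ} {s : List ℕ} : Desc (n :: s) ↔ (∀ x ∈ s, x < n) ∧ Desc s :=
  List.pairwise_cons

/-- Acceptance. -/
inductive W (U : Ultrafilter ℕ) (G : List ℕ → Prop) : List ℕ → Prop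
  | base (s : List ℕ) : G s → W U G s
  | step (s : List ℕ) (T : Set ℕ) (hT : T ∈ U) (h : ∀ n ∈ T, W U G (n :: s)) : W U G s

theorem above_mem {U : Ultrafilter ℕ} (hU : ∀ m, {n | m < n} ∈ U) (s : List ℕ) :
    {n | ∀ x ∈ s, x < n} ∈ U := by
  induction s with
  | nil =>
    exact Filter.mem_of_superset (Filter.univ_mem : Set.univ ∈ (U : Filter ℕ))
      (by intro n _ x hx; simp at hx)
  | cons a s ih =>
    filter_upwards [hU a, ih] with n h1 h2
    intro x hx
    rcases List.mem_cons.1 hx with rfl | hx
    · exact h1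
    · exact h2 x hx

theorem W_disj1 {U : Ultrafilter ℕ} (hU : ∀ m, {n | m < n} ∈ U) {G G' : List ℕ → Prop}
    (hc : ∀ s t, s <:+ t → Desc t → G s → G' t → False) {t : List ℕ} (ht : W U G' t) :
    Desc t → ∀ s, s <:+ t → G s → False := by
  induction ht with
  | base t h => intro hd s hs hG; exact hc s t hs hd hG h
  | step t T hT _ ih =>
    intro hd s hs hG
    obtain ⟨n, hn1, hn2⟩ := U.nonempty_of_mem (Filter.inter_mem hT (above_mem hU t))
    exact ih n hn1 (desc_cons.2 ⟨hn2, hd⟩) s (hs.trans (List.suffix_cons n t)) hG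

theorem W_disj {U : Ultrafilter ℕ} (hU : ∀ m, {n | m < n} ∈ U) {G G' : List ℕ → Prop}
    (hc : ∀ s t, s <:+ t → Desc t → G s → G' t → False)
    (hc' : ∀ s t, s <:+ t → Desc t → G' s → G t → False) {t : List ℕ} (ht : W U G t) :
    Desc t → W U G' t → False := by
  induction ht with
  | base t h => intro hd h'; exact W_disj1 hU hc h' hd t List.suffix_rfl h
  | step t T hT h0 ih =>
    intro hd h'
    cases h' with
    | base _ h' => exact W_disj1 hU hc' (W.step t T hT h0) hd t List.suffix_rfl h'
    | step _ T' hT' h'' =>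
      obtain ⟨n, ⟨hn1, hn1'⟩, hn2⟩ :=
        U.nonempty_of_mem (Filter.inter_mem (Filter.inter_mem hT hT') (above_mem hU t))
      exact ih n hn1 (desc_cons.2 ⟨hn2, hd⟩) (h'' n hn1')

theorem sublist_of_desc : ∀ (l s : List ℕ), Desc l → Desc s → (∀ x ∈ s, x ∈ l) → s.Sublist l := by
  intro l
  induction l with
  | nil =>
    intro s _ _ h
    cases s with
    | nil => exact List.Sublist.refl _
    | cons a s => exact absurd (h a (List.mem_cons_self)) (by simp)
  | cons n l ih =>
    intro s hl hs h
    cases s with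
    | nil => exact List.nil_sublist _
    | cons a s =>
      rw [desc_cons] at hl hs
      by_cases han : a = n
      · subst han
        refine List.Sublist.cons_cons a (ih s hl.2 hs.2 fun x hx => ?_)
        rcases List.mem_cons.1 (h x (List.mem_cons_of_mem _ hx)) with rfl | h'
        · exact absurd (hs.1 x hx) (lt_irrefl _)
        · exact h'
      · have ha : a ∈ l := by
          rcases List.mem_cons.1 (h a List.mem_cons_self) with h' | h'
          · exact absurd h' han
          · exact h'
        refine List.Sublist.cons n (ih (a :: s) hl.2 (desc_cons.2 hs) fun x hx => ?_)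
        rcases List.mem_cons.1 hx with rfl | hx'
        · exact ha
        · rcases List.mem_cons.1 (h x hx) with rfl | h'
          · exact absurd ((hs.1 x hx').trans (hl.1 a ha)) (lt_irrefl _)
          · exact h'

theorem ramsey (B : Set ℕ) (hB : B.Infinite) (m N : ℕ) (hmN : m < N)
    (G : ℕ → ℕ → List ℕ → Prop)
    (hc : ∀ j < m, ∀ k < N, ∀ k' < N, ∀ s t, s <:+ t → Desc t → G j k s → G j k' t → k = k') :
    ∃ k < N, ∃ H ⊆ B, H.Infinite ∧
      ∀ s, Desc s → (∀ x ∈ s, x ∈ H) → ∀ j < m, ¬ G j k s := by
  classical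
  have : (Filter.cofinite ⊓ Filter.principal B).NeBot := by
    rw [Filter.inf_principal_neBot_iff]
    intro T hT
    have h1 : (Tᶜ : Set ℕ).Finite := by simpa using hT
    by_contra hne
    rw [Set.not_nonempty_iff_eq_empty] at hne
    refine hB (h1.subset fun x hx => ?_)
    intro hxT
    have : x ∈ T ∩ B := ⟨hxT, hx⟩
    rw [hne] at this
    exact this
  set U : Ultrafilter ℕ := Ultrafilter.of (Filter.cofinite ⊓ Filter.principal B) with hUdef
  have hle : (U : Filter ℕ) ≤ Filter.cofinite ⊓ Filter.principal B := Ultrafilter.of_le _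
  have hUB : B ∈ U := (hle.trans inf_le_right) (Filter.mem_principal_self B)
  have hU : ∀ m, {n | m < n} ∈ U := by
    intro m
    refine (hle.trans inf_le_left) ?_
    rw [Filter.mem_cofinite]
    refine (Set.finite_Iic m).subset fun x hx => ?_
    simpa using hx
  have hex : ∃ k < N, ∀ j < m, ¬ W U (G j k) [] := by
    by_contra hne
    push Not at hne
    choose! f hf1 hf2 using hne
    let g : Fin N → Fin m := fun k => ⟨f k, hf1 k k.2⟩
    obtain ⟨k, k', hkk, heq⟩ := Fintype.exists_ne_map_eq_of_card_lt g (by simpa using hmN)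
    have heq' : f k = f k' := by simpa [g] using heq
    have h1 := hf2 k k.2
    have h2 := hf2 k' k'.2
    rw [← heq'] at h2
    have hkk' : (k : ℕ) ≠ k' := fun h => hkk (Fin.ext h)
    exact W_disj hU
      (fun s t hs ht a b => hkk' (hc (f k) (hf1 k k.2) k k.2 k' k'.2 s t hs ht a b))
      (fun s t hs ht a b => hkk' (hc (f k) (hf1 k k.2) k' k'.2 k k.2 s t hs ht a b).symm)
      h1 desc_nil h2
  obtain ⟨k, hk, hW⟩ := hex
  -- the states
  let P : List ℕ → Prop := fun l => Desc l ∧ (∀ x ∈ l, x ∈ B) ∧
    ∀ s, s.Sublist l → ∀ j < m, ¬ W U (G j k) s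
  have hstep : ∀ l, P l → ∃ n, P (n :: l) := by
    intro l ⟨hl1, hl2, hl3⟩
    have hfin : {n | ∀ s ∈ l.sublists.toFinset, ∀ j ∈ Finset.range m,
        ¬ W U (G j k) (n :: s)} ∈ U := by
      have : (⋂ s ∈ l.sublists.toFinset, ⋂ j ∈ Finset.range m,
          {n | ¬ W U (G j k) (n :: s)}) ∈ (U : Filter ℕ) := by
        rw [Filter.biInter_finset_mem]
        intro s hs
        rw [Filter.biInter_finset_mem]
        intro j hj
        have hs' : s.Sublist l := by simpa using hs
        have hj' : j < m := by simpa using hj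
        have hno := hl3 s hs' j hj'
        by_contra hcon
        have : {n | W U (G j k) (n :: s)} ∈ U := by
          have h2 := (Ultrafilter.compl_mem_iff_notMem (f := U)).2 hcon
          filter_upwards [h2] with n hn
          simpa using hn
        exact hno (W.step s _ this fun n hn => hn)
      filter_upwards [this] with n hn
      simpa using hn
    obtain ⟨n, ⟨h1, h2⟩, h3⟩ :=
      U.nonempty_of_mem (Filter.inter_mem (Filter.inter_mem hfin (above_mem hU l)) hUB)
    refine ⟨n, desc_cons.2 ⟨h2, hl1⟩, ?_, ?_⟩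
    · intro x hx
      rcases List.mem_cons.1 hx with rfl | hx
      · exact h3
      · exact hl2 x hx
    · intro s hs j hj
      rcases List.sublist_cons_iff.1 hs with h | ⟨r, rfl, hr⟩
      · exact hl3 s h j hj
      · exact h1 r (by simpa using hr) j (by simpa using hj)
  have hP0 : P [] := by
    refine ⟨desc_nil, by simp, ?_⟩
    intro s hs j hj
    have : s = [] := List.sublist_nil.1 hs
    subst this
    exact hW j hj
  choose nx hnx using hstep
  let seq : ℕ → {l : List ℕ // P l} := fun r =>
    Nat.rec ⟨[], hP0⟩ (fun _ l => ⟨nx l.1 l.2 :: l.1, hnx l.1 l.2⟩) r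
  have hseq : ∀ r, (seq (r + 1)).1 = nx (seq r).1 (seq r).2 :: (seq r).1 := fun r => rfl
  have hmono1 : ∀ r x, x ∈ (seq r).1 → x ∈ (seq (r + 1)).1 := by
    intro r x hx; rw [hseq]; exact List.mem_cons_of_mem _ hx
  have hmono : ∀ r r', r ≤ r' → ∀ x, x ∈ (seq r).1 → x ∈ (seq r').1 := by
    intro r r' hr
    induction hr with
    | refl => intro x hx; exact hx
    | step _ ih => intro x hx; exact hmono1 _ _ (ih x hx)
  have hlen : ∀ r, (seq r).1.length = r := by
    intro r
    induction r with
    | zero => rfl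
    | succ r ih => rw [hseq, List.length_cons, ih]
  refine ⟨k, hk, {x | ∃ r, x ∈ (seq r).1}, ?_, ?_, ?_⟩
  · rintro x ⟨r, hx⟩
    exact (seq r).2.2.1 x hx
  · intro hfin
    have hsub : ∀ r, (seq r).1.toFinset ⊆ hfin.toFinset := by
      intro r x hx
      simp only [Set.Finite.mem_toFinset, Set.mem_ofPred_eq]
      exact ⟨r, by simpa using hx⟩
    have hcard : ∀ r, (seq r).1.toFinset.card = r := by
      intro r
      rw [List.toFinset_card_of_nodup, hlen]
      have := (seq r).2.1
      refine List.Pairwise.imp ?_ this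
      intro a b hab
      exact (ne_of_gt hab)
    have h1 := Finset.card_le_card (hsub (hfin.toFinset.card + 1))
    have h2 := (le_of_eq (hcard (hfin.toFinset.card + 1)).symm).trans h1
    omega
  · intro s hs hsH j hj hG
    have : ∀ s : List ℕ, (∀ x ∈ s, ∃ r, x ∈ (seq r).1) → ∃ r, ∀ x ∈ s, x ∈ (seq r).1 := by
      intro s
      induction s with
      | nil => intro _; exact ⟨0, by simp⟩
      | cons a s ih =>
        intro h
        obtain ⟨r1, h1⟩ := h a List.mem_cons_self
        obtain ⟨r2, h2⟩ := ih fun x hx => h x (List.mem_cons_of_mem _ hx)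
        refine ⟨max r1 r2, fun x hx => ?_⟩
        rcases List.mem_cons.1 hx with rfl | hx
        · exact hmono _ _ (le_max_left _ _) _ h1
        · exact hmono _ _ (le_max_right _ _) _ (h2 x hx)
    obtain ⟨r, hr⟩ := this s hsH
    exact (seq r).2.2.2 s (sublist_of_desc _ _ (seq r).2.1 hs hr) j hj (W.base s hG)

end Pool.Agent.X97.IR
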