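import Pool.Agent.X97.IR.Cnt

set_option autoImplicit false

/-! # Finite unions of uniformly introreducible sets -/

namespace Pool.Agent.X97.IR

/-- `τ` is given by `f` from initial segments of `σ`. -/
def Der (f : List Bool × ℕ →. Bool) (σ τ : List Bool) : Prop :=
  ∀ (a : ℕ) (h : a < τ.length), ∃ n ≤ σ.length, τ[a] ∈ f (σ.take n, a)

/-- Composition of functionals. -/
noncomputable def comp (f g : List Bool × ℕ →. Bool) : List Bool × ℕ →. Bool := fun p =>
  ⟨∃ y, ∃ τ, Der f p.1 τ ∧ y ∈ g (τ, p.2), fun h => h.choose⟩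

theorem mem_comp {f g : List Bool × ℕ →. Bool} {p : List Bool × ℕ} {y : Bool}
    (h : y ∈ comp f g p) : ∃ τ, Der f p.1 τ ∧ y ∈ g (τ, p.2) := by
  obtain ⟨h1, h2⟩ := h
  have h3 := Exists.choose_spec h1
  obtain ⟨τ, h4, h5⟩ := h3
  refine ⟨τ, h4, ?_⟩
  have h6 : h1.choose = y := h2
  rw [← h6]
  exact h5

theorem opre_take (C : Set ℕ) {n N : ℕ} (h : n ≤ N) : (opre C N).take n = opre C n := by
  unfold opre
  rw [← List.map_take, List.take_range, min_eq_left h]

open Classical in
theorem opre_getElem (C : Set ℕ) (n a : ℕ) (h : a < (opre C n).length) :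
    (opre C n)[a] = decide (a ∈ C) := by
  simp [opre]

theorem computes_comp {f g : List Bool × ℕ →. Bool} {C B A : Set ℕ} (hf : Computes f C B)
    (hg : Computes g B A) : Computes (comp f g) C A := by
  classical
  intro x
  constructor
  · obtain ⟨m, hm⟩ := (hg x).1
    have h1 : ∀ a, ∃ n, (f (opre C n, a)).Dom := fun a => (hf a).1
    choose nf hnf using h1
    obtain ⟨y, hy⟩ := Part.dom_iff_mem.1 hm
    refine ⟨(Finset.range m).sup nf, ⟨y, opre B m, ?_, hy⟩⟩
    intro a ha
    have ham : a < m := by rwa [opre_length] at ha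
    have hle : nf a ≤ (Finset.range m).sup nf := Finset.le_sup (f := nf) (Finset.mem_range.2 ham)
    refine ⟨nf a, by rw [opre_length]; exact hle, ?_⟩
    show (opre B m)[a] ∈ f ((opre C ((Finset.range m).sup nf)).take (nf a), a)
    rw [opre_take C hle, opre_getElem]
    obtain ⟨w, hw⟩ := Part.dom_iff_mem.1 (hnf a)
    have h2 := (hf a).2 _ w hw
    have : w = decide (a ∈ B) := by
      rw [Bool.eq_iff_iff, h2]
      simp
    rwa [← this]
  · intro N y hy
    obtain ⟨τ, h1, h2⟩ := mem_comp hy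
    have hτ : τ = opre B τ.length := by
      apply List.ext_getElem
      · rw [opre_length]
      · intro a ha hb
        obtain ⟨n, hn1, hn2⟩ := h1 a ha
        have hn1' : n ≤ N := by rwa [opre_length] at hn1
        have hn3 : τ[a] ∈ f ((opre C N).take n, a) := hn2
        rw [opre_take C hn1'] at hn3
        have h3 := (hf a).2 _ _ hn3
        rw [opre_getElem, Bool.eq_iff_iff, h3]
        simp
    have h3 : y ∈ g (τ, x) := h2
    rw [hτ] at h3
    exact (hg x).2 _ y h3

theorem exists_not_union :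
    ∃ A : Set ℕ, Introreducible A ∧
      ¬ ∃ (n : ℕ) (B : Fin (n + 1) → Set ℕ), (∀ i, UniformlyIntroreducible (B i)) ∧
        A = ⋃ i, B i := by
  obtain ⟨X, hX⟩ := nondec (TOp × TOp) (fun o => comp o.1.1 o.2.1)
  refine ⟨As X, introreducible_As X, ?_⟩
  rintro ⟨n, B, hB, hA⟩
  have hsub : ∀ j, B j ⊆ As X := fun j => by
    rw [hA]; exact Set.subset_iUnion B j
  have hf : ∀ j, UiRed (B j) (B j) := fun j => (hB j).2
  have hg : ∀ j, TRed (As X) (B j) := fun j => (introreducible_As X).2 (B j) (hsub j) (hB j).1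
  choose f hf using hf
  choose g hg using hg
  obtain ⟨j, C, hC1, _, hC3, hC4⟩ := hX (n + 1)
    (fun j => (⟨f j, (hf j).1⟩, ⟨g j, (hg j).1⟩)) B hA.subset
  exact hC4 (computes_comp ((hf j).2 C hC1 hC3) (hg j).2)

end Pool.Agent.X97.IR
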